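import Mathlib
import Pool.Agent.H294R2.BF.L1

/-!
# The Komlós conjecture for matrices computed by few adaptive equality tests

The entry `A i j` of a real matrix is computed adaptively by tests of the form `f(i) = g(j)`, with
arbitrary labellings `f` of the rows and `g` of the columns which may depend on the results of the
tests before. If at most `d` tests are made and all entries are at most `a` in absolute value, then
there are signs `x_j` with `|∑ j, x_j A i j| ≤ 9^d a` for all rows `i`. So the Komlós conjecture holds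
with the constant `9^d` for the vectors whose coordinates are computed by `d` tests: there is no
dependence on the dimension or on the number of vectors. The exponential dependence on `d` is needed
for matrices with entries `0` and `1`.

Outline. The matrix is a signed sum of `3^d` matrices `c_p [φ_p(i) = ψ_p(j)]` with `|c_p| ≤ a`: the
positive result of a test multiplies by `[f(i) = g(j)]` and the negative one by `1 - [f(i) = g(j)]`.
Every column is in one class `ψ_p = u` for every `p`, so the `ℓ¹` signing theorem of the starting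
files (a strengthening of the Beck-Fiala theorem) gives signs whose sums over all these classes are
at most `3^d`.
-/

set_option autoImplicit false
open Finset
open scoped Classical

namespace Pool.Agent.Results.MP_c81d26_co.EqualityOracle

/-- Protocols with an equality oracle for the entries of a matrix with rows `X` and columns `Y`. A
leaf gives the value; a node tests whether `f i = g j`, for the row `i` and the column `j`. -/
inductive Protocol (X Y : Type) : Type
  | leaf (value : ℝ) : Protocol X Y
  | node (f : X → ℕ) (g : Y → ℕ) (yes no : Protocol X Y) : Protocol X Y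

/-- The largest number of tests. -/
def Protocol.tests {X Y : Type} : Protocol X Y → ℕ
  | .leaf _ => 0
  | .node _ _ yes no => max yes.tests no.tests + 1

/-- The computed entry. -/
noncomputable def Protocol.out {X Y : Type} : Protocol X Y → X → Y → ℝ
  | .leaf value, _, _ => value
  | .node f g yes no, i, j => if f i = g j then yes.out i j else no.out i j

section

variable {X Y : Type}

/-- the leaves are bounded -/
def Bdd (a : ℝ) : Protocol X Y → Prop
  | .leaf v => |v| ≤ a
  | .node _ _ yes no => Bdd a yes ∧ Bdd a no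

/-- cut off the leaves -/
noncomputable def clip (a : ℝ) : Protocol X Y → Protocol X Y
  | .leaf v => .leaf (if |v| ≤ a then v else 0)
  | .node f g yes no => .node f g (clip a yes) (clip a no)

theorem clip_tests (a : ℝ) (t : Protocol X Y) : (clip a t).tests = t.tests := by
  induction t with
  | leaf v => rfl
  | node f g s t ihs iht =>
    show max (clip a s).tests (clip a t).tests + 1 = max s.tests t.tests + 1
    rw [ihs, iht]

theorem clip_bdd {a : ℝ} (ha : 0 ≤ a) (t : Protocol X Y) : Bdd a (clip a t) := by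
  induction t with
  | leaf v =>
    show |if |v| ≤ a then v else 0| ≤ a
    split_ifs with h
    · exact h
    · rw [abs_zero]
      exact ha
  | node f g s t ihs iht => exact ⟨ihs, iht⟩

theorem clip_out {a : ℝ} (t : Protocol X Y) (i : X) (j : Y) (h : |t.out i j| ≤ a) :
    (clip a t).out i j = t.out i j := by
  induction t with
  | leaf v =>
    have h' : |v| ≤ a := h
    show (if |v| ≤ a then v else 0) = v
    rw [if_pos h']
  | node f g s t ihs iht =>
    have h' : |if f i = g j then s.out i j else t.out i j| ≤ a := h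
    show (if f i = g j then (clip a s).out i j else (clip a t).out i j) =
      if f i = g j then s.out i j else t.out i j
    by_cases h0 : f i = g j
    · rw [if_pos h0] at h' ⊢
      rw [if_pos h0]
      exact ihs h'
    · rw [if_neg h0] at h' ⊢
      rw [if_neg h0]
      exact iht h'

/-- the indicator -/
noncomputable def ind (p : Prop) : ℝ := if p then 1 else 0

theorem ind_and (p q : Prop) : ind (p ∧ q) = ind p * ind q := by
  unfold ind
  by_cases hp : p <;> by_cases hq : q <;> simp [hp, hq]

theorem decompose {a : ℝ} (t : Protocol X Y) (ht : Bdd a t) :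
    ∃ (J : Type) (_ : Fintype J) (c : J → ℝ) (φ : J → X → ℕ) (ψ : J → Y → ℕ),
      Fintype.card J ≤ 3 ^ t.tests ∧ (∀ p, |c p| ≤ a) ∧
      ∀ i j, t.out i j = ∑ p, c p * ind (φ p i = ψ p j) := by
  induction t with
  | leaf v =>
    refine ⟨Unit, inferInstance, fun _ => v, fun _ _ => 0, fun _ _ => 0, ?_, fun _ => ht, ?_⟩
    · simp [Protocol.tests]
    · intro i j
      show v = _
      simp [ind]
  | node f g s t ihs iht =>
    obtain ⟨J, _, c, φ, ψ, h1, h2, h3⟩ := ihs ht.1
    obtain ⟨J', _, c', φ', ψ', h1', h2', h3'⟩ := iht ht.2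
    refine ⟨J ⊕ (J' ⊕ J'), inferInstance, Sum.elim c (Sum.elim c' fun p => -c' p),
      Sum.elim (fun p i => Nat.pair (φ p i) (f i)) (Sum.elim φ' fun p i => Nat.pair (φ' p i) (f i)),
      Sum.elim (fun p j => Nat.pair (ψ p j) (g j)) (Sum.elim ψ' fun p j => Nat.pair (ψ' p j) (g j)),
      ?_, ?_, ?_⟩
    · rw [Fintype.card_sum, Fintype.card_sum]
      show _ ≤ 3 ^ (max s.tests t.tests + 1)
      have e1 : 3 ^ s.tests ≤ 3 ^ max s.tests t.tests :=
        Nat.pow_le_pow_right (by norm_num) (le_max_left _ _)
      have e2 : 3 ^ t.tests ≤ 3 ^ max s.tests t.tests :=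
        Nat.pow_le_pow_right (by norm_num) (le_max_right _ _)
      rw [pow_succ]
      omega
    · rintro (p | p | p)
      · exact h2 p
      · exact h2' p
      · show |-c' p| ≤ a
        rw [abs_neg]
        exact h2' p
    · intro i j
      show (if f i = g j then s.out i j else t.out i j) = _
      rw [Fintype.sum_sum_type, Fintype.sum_sum_type]
      simp only [Sum.elim_inl, Sum.elim_inr, Nat.pair_eq_pair, ind_and]
      have e1 : ∑ p, c p * (ind (φ p i = ψ p j) * ind (f i = g j)) =
          s.out i j * ind (f i = g j) := by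
        rw [h3, sum_mul]
        exact sum_congr rfl fun p _ => by ring
      have e2 : ∑ p, -c' p * (ind (φ' p i = ψ' p j) * ind (f i = g j)) =
          -(t.out i j * ind (f i = g j)) := by
        rw [h3', sum_mul, ← sum_neg_distrib]
        exact sum_congr rfl fun p _ => by ring
      rw [e1, e2, ← h3']
      unfold ind
      by_cases h0 : f i = g j
      · simp [h0]
      · simp [h0]

theorem signing {R : Type} [Fintype R] [Fintype Y] (A : R → Y → ℝ) (t : ℝ) (ht : 0 ≤ t)
    (hA : ∀ j, ∑ i, |A i j| ≤ t) :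
    ∃ x : Y → ℝ, (∀ j, x j = 1 ∨ x j = -1) ∧ ∀ i, |∑ j, A i j * x j| ≤ t := by
  obtain ⟨x, hx, h⟩ := H294BF.l1_signing
    (fun i j => A ((Fintype.equivFin R).symm i) ((Fintype.equivFin Y).symm j)) t ht (fun j => by
      rw [Equiv.sum_comp (Fintype.equivFin R).symm (fun i => |A i ((Fintype.equivFin Y).symm j)|)]
      exact hA _)
  refine ⟨fun j => x (Fintype.equivFin Y j), fun j => hx _, fun i => ?_⟩
  have h2 := h (Fintype.equivFin R i)
  rw [Equiv.symm_apply_apply] at h2
  have h3 : ∑ j, A i ((Fintype.equivFin Y).symm j) * x j =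
      ∑ j, A i j * x (Fintype.equivFin Y j) := by
    rw [← Equiv.sum_comp (Fintype.equivFin Y)
      (fun j => A i ((Fintype.equivFin Y).symm j) * x j)]
    refine sum_congr rfl fun j _ => ?_
    rw [Equiv.symm_apply_apply]
  rw [h3] at h2
  exact h2

theorem main [Fintype X] [Fintype Y] {a : ℝ} (ha : 0 ≤ a) (t : Protocol X Y)
    (ht : ∀ i j, |t.out i j| ≤ a) :
    ∃ x : Y → ℝ, (∀ j, x j = 1 ∨ x j = -1) ∧ ∀ i, |∑ j, t.out i j * x j| ≤ 9 ^ t.tests * a := by
  obtain ⟨J, _, c, φ, ψ, h1, h2, h3⟩ := decompose (clip a t) (clip_bdd ha t)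
  rw [clip_tests] at h1
  have h4 : ∀ i j, t.out i j = ∑ p, c p * ind (φ p i = ψ p j) := by
    intro i j
    rw [← clip_out t i j (ht i j), h3]
  set N := ∑ p, ∑ j, ψ p j + 1 with hN
  have hψ : ∀ p j, ψ p j < N := by
    intro p j
    have e1 : ψ p j ≤ ∑ j, ψ p j := single_le_sum (fun _ _ => Nat.zero_le _) (mem_univ j)
    have e2 : ∑ j, ψ p j ≤ ∑ p, ∑ j, ψ p j :=
      single_le_sum (f := fun p => ∑ j, ψ p j) (fun _ _ => Nat.zero_le _) (mem_univ p)
    omega
  obtain ⟨x, hx, hB⟩ := signing (R := J × Fin N) (Y := Y)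
    (fun z j => ind (z.2.1 = ψ z.1 j)) (Fintype.card J) (Nat.cast_nonneg _) (by
      intro j
      refine le_of_eq ?_
      rw [Fintype.sum_prod_type]
      have e : ∀ p : J, ∑ u : Fin N, |ind (u.1 = ψ p j)| = 1 := by
        intro p
        rw [sum_eq_single (⟨ψ p j, hψ p j⟩ : Fin N)]
        · simp [ind]
        · intro u _ hu
          have : ¬ u.1 = ψ p j := fun h => hu (Fin.ext h)
          simp [ind, this]
        · intro h
          exact absurd (mem_univ _) h
      rw [sum_congr rfl fun p _ => e p, sum_const, card_univ, nsmul_eq_mul, mul_one])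
  refine ⟨x, hx, fun i => ?_⟩
  have e1 : ∑ j, t.out i j * x j = ∑ p, c p * ∑ j, ind (φ p i = ψ p j) * x j := by
    have : ∀ j, t.out i j * x j = ∑ p, c p * (ind (φ p i = ψ p j) * x j) := by
      intro j
      rw [h4, sum_mul]
      exact sum_congr rfl fun p _ => by ring
    rw [sum_congr rfl fun j _ => this j, sum_comm]
    exact sum_congr rfl fun p _ => by rw [mul_sum]
  have e2 : ∀ p, |∑ j, ind (φ p i = ψ p j) * x j| ≤ Fintype.card J := by
    intro p
    by_cases hu : φ p i < N
    · exact hB (p, ⟨φ p i, hu⟩)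
    · have : ∑ j, ind (φ p i = ψ p j) * x j = 0 := by
        refine sum_eq_zero fun j _ => ?_
        have h5 : ¬ φ p i = ψ p j := fun h => hu (h ▸ hψ p j)
        simp [ind, h5]
      rw [this, abs_zero]
      exact Nat.cast_nonneg _
  have hJ : (Fintype.card J : ℝ) ≤ 3 ^ t.tests := by exact_mod_cast h1
  have hJ0 : (0 : ℝ) ≤ Fintype.card J := Nat.cast_nonneg _
  rw [e1]
  calc |∑ p, c p * ∑ j, ind (φ p i = ψ p j) * x j|
      ≤ ∑ p, |c p * ∑ j, ind (φ p i = ψ p j) * x j| := abs_sum_le_sum_abs _ _
    _ ≤ ∑ _p : J, a * Fintype.card J := by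
        refine sum_le_sum fun p _ => ?_
        rw [abs_mul]
        exact mul_le_mul (h2 p) (e2 p) (abs_nonneg _) ha
    _ = Fintype.card J * Fintype.card J * a := by
        rw [sum_const, card_univ, nsmul_eq_mul]
        ring
    _ ≤ 3 ^ t.tests * 3 ^ t.tests * a := by
        refine mul_le_mul_of_nonneg_right ?_ ha
        exact mul_le_mul hJ hJ hJ0 (by positivity)
    _ = 9 ^ t.tests * a := by
        rw [← mul_pow]
        norm_num

theorem search (m : ℕ) : ∀ P : Finset Y, P.card ≤ 2 ^ m → ∃ t : Protocol (Finset Y) Y,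
    t.tests ≤ m + 1 ∧ (∀ S y, t.out S y = 0 ∨ t.out S y = 1) ∧
      ∀ y ∈ P, ∀ S, t.out S y = ind (y ∈ S) := by
  induction m with
  | zero =>
    intro P hP
    rcases P.eq_empty_or_nonempty with rfl | ⟨y0, h0⟩
    · exact ⟨.leaf 0, by simp [Protocol.tests], fun _ _ => Or.inl rfl,
        fun y hy => absurd hy (notMem_empty y)⟩
    · have hall : ∀ y ∈ P, y = y0 := by
        intro y hy
        exact card_le_one.1 (by simpa using hP) y hy y0 h0
      refine ⟨.node (fun S => if y0 ∈ S then 1 else 0) (fun _ => 1) (.leaf 1) (.leaf 0),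
        le_refl _, ?_, ?_⟩
      · intro S y
        show (if (if y0 ∈ S then 1 else 0) = 1 then (1 : ℝ) else 0) = 0 ∨
          (if (if y0 ∈ S then 1 else 0) = 1 then (1 : ℝ) else 0) = 1
        by_cases h : y0 ∈ S <;> simp [h]
      · intro y hy S
        rw [hall y hy]
        show (if (if y0 ∈ S then 1 else 0) = 1 then (1 : ℝ) else 0) = ind (y0 ∈ S)
        unfold ind
        by_cases h : y0 ∈ S <;> simp [h]
  | succ m ih =>
    intro P hP
    obtain ⟨Q, hQ, hQc⟩ : ∃ Q ⊆ P, Q.card = min P.card (2 ^ m) :=
      exists_subset_card_eq (min_le_left _ _)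
    have h1 : Q.card ≤ 2 ^ m := by rw [hQc]; exact min_le_right _ _
    have h2 : (P \ Q).card ≤ 2 ^ m := by
      rw [card_sdiff_of_subset hQ, hQc]
      have : (2 : ℕ) ^ (m + 1) = 2 * 2 ^ m := by ring
      omega
    obtain ⟨s, hs, hs01, hs'⟩ := ih Q h1
    obtain ⟨t, ht, ht01, ht'⟩ := ih (P \ Q) h2
    refine ⟨.node (fun _ => 1) (fun y => if y ∈ Q then 1 else 0) s t, ?_, ?_, ?_⟩
    · show max s.tests t.tests + 1 ≤ m + 1 + 1
      omega
    · intro S y
      show (if 1 = (if y ∈ Q then 1 else 0) then s.out S y else t.out S y) = 0 ∨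
        (if 1 = (if y ∈ Q then 1 else 0) then s.out S y else t.out S y) = 1
      by_cases h : 1 = (if y ∈ Q then 1 else 0)
      · rw [if_pos h]
        exact hs01 S y
      · rw [if_neg h]
        exact ht01 S y
    · intro y hy S
      show (if 1 = (if y ∈ Q then 1 else 0) then s.out S y else t.out S y) = ind (y ∈ S)
      by_cases h : y ∈ Q
      · rw [if_pos (by rw [if_pos h])]
        exact hs' y h S
      · rw [if_neg (by rw [if_neg h]; norm_num)]
        exact ht' y (mem_sdiff.2 ⟨hy, h⟩) S

end

/-- (1) Let `X`, `Y` be finite sets and let the entries of a real matrix with rows `X` and columns `Y`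
be at most `a` in absolute value and be computed by a protocol with at most `d` equality tests. Then
there are signs `x_j` with `|∑ j, A i j x_j| ≤ 9^d a` for all rows `i`. (2) Let `v_j`, `j ∈ Y`, be
finitely many vectors of Euclidean norm at most `1` in a Euclidean space of finite dimension, such
that the coordinates are computed by a protocol with at most `d` equality tests. Then there are signs
`x_j` such that all coordinates of `∑ j, x_j v_j` are at most `9^d` in absolute value. (3) For every
`d` there is a matrix with entries `0` and `1` with `2^d` columns, computed by a protocol with at most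
`d + 1` tests, such that for all signs `x_j` some row has `|∑ j, A i j x_j| ≥ 2^d / 2`. -/
theorem result :
    (∀ (X Y : Type) [Fintype X] [Fintype Y] (d : ℕ) (a : ℝ) (t : Protocol X Y), 0 ≤ a →
      t.tests ≤ d → (∀ i j, |t.out i j| ≤ a) →
      ∃ x : Y → ℝ, (∀ j, x j = 1 ∨ x j = -1) ∧ ∀ i, |∑ j, t.out i j * x j| ≤ 9 ^ d * a) ∧
    (∀ (X Y : Type) [Fintype X] [Fintype Y] (d : ℕ) (v : Y → EuclideanSpace ℝ X)
      (t : Protocol X Y), t.tests ≤ d → (∀ j, ‖v j‖ ≤ 1) → (∀ i j, t.out i j = v j i) →
      ∃ x : Y → ℝ, (∀ j, x j = 1 ∨ x j = -1) ∧ ∀ i, |(∑ j, x j • v j) i| ≤ 9 ^ d) ∧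
    (∀ d : ℕ, ∃ t : Protocol (Finset (Fin (2 ^ d))) (Fin (2 ^ d)), t.tests ≤ d + 1 ∧
      (∀ S y, t.out S y = 0 ∨ t.out S y = 1) ∧
      ∀ x : Fin (2 ^ d) → ℝ, (∀ j, x j = 1 ∨ x j = -1) →
        ∃ S, (2 : ℝ) ^ d / 2 ≤ |∑ y, t.out S y * x y|) := by
  have h1 : ∀ (X Y : Type) [Fintype X] [Fintype Y] (d : ℕ) (a : ℝ) (t : Protocol X Y),
      0 ≤ a → t.tests ≤ d → (∀ i j, |t.out i j| ≤ a) →
      ∃ x : Y → ℝ, (∀ j, x j = 1 ∨ x j = -1) ∧ ∀ i, |∑ j, t.out i j * x j| ≤ 9 ^ d * a := by
    intro X Y _ _ d a t ha htd ht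
    obtain ⟨x, hx, h⟩ := main ha t ht
    refine ⟨x, hx, fun i => (h i).trans (mul_le_mul_of_nonneg_right ?_ ha)⟩
    exact pow_le_pow_right₀ (by norm_num) htd
  refine ⟨h1, ?_, ?_⟩
  · intro X Y _ _ d v t htd hv htv
    have h2 : ∀ i j, |t.out i j| ≤ 1 := by
      intro i j
      rw [htv]
      have h3 : ‖v j i‖ ≤ ‖v j‖ := PiLp.norm_apply_le (v j) i
      rw [Real.norm_eq_abs] at h3
      exact h3.trans (hv j)
    obtain ⟨x, hx, h⟩ := h1 X Y d 1 t zero_le_one htd h2
    refine ⟨x, hx, fun i => ?_⟩
    have h3 := h i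
    rw [mul_one] at h3
    have h4 : (∑ j, x j • v j) i = ∑ j, t.out i j * x j := by
      rw [WithLp.ofLp_sum, Finset.sum_apply]
      refine sum_congr rfl fun j _ => ?_
      rw [htv]
      show x j * v j i = v j i * x j
      ring
    rw [h4]
    exact h3
  · intro d
    obtain ⟨t, ht, h01, hP⟩ := search (Y := Fin (2 ^ d)) d univ (by rw [card_univ, Fintype.card_fin])
    refine ⟨t, ht, h01, fun x hx => ?_⟩
    have key : ∀ S : Finset (Fin (2 ^ d)), ∑ y, t.out S y * x y = ∑ y ∈ S, x y := by
      intro S
      have : ∀ y, t.out S y * x y = if y ∈ S then x y else 0 := by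
        intro y
        rw [hP y (mem_univ y) S]
        unfold ind
        by_cases h : y ∈ S <;> simp [h]
      rw [sum_congr rfl fun y _ => this y, sum_ite_mem, univ_inter]
    set S1 := univ.filter fun y => x y = 1 with hS1
    set S2 := univ.filter fun y => ¬ x y = 1 with hS2
    have e1 : ∑ y ∈ S1, x y = S1.card := by
      rw [sum_congr rfl (g := fun _ => (1 : ℝ)) (fun y hy => (mem_filter.1 hy).2), sum_const,
        nsmul_eq_mul, mul_one]
    have e2 : ∑ y ∈ S2, x y = -(S2.card : ℝ) := by
      rw [sum_congr rfl (g := fun _ => (-1 : ℝ))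
        (fun y hy => (hx y).resolve_left (mem_filter.1 hy).2), sum_const, nsmul_eq_mul]
      ring
    have e3 : S1.card + S2.card = 2 ^ d := by
      rw [hS1, hS2, card_filter_add_card_filter_not, card_univ, Fintype.card_fin]
    have e4 : (S1.card : ℝ) + S2.card = 2 ^ d := by exact_mod_cast e3
    by_cases h : (2 : ℝ) ^ d / 2 ≤ S1.card
    · refine ⟨S1, ?_⟩
      rw [key, e1, abs_of_nonneg (Nat.cast_nonneg _)]
      exact h
    · refine ⟨S2, ?_⟩
      rw [key, e2, abs_neg, abs_of_nonneg (Nat.cast_nonneg _)]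
      linarith

end Pool.Agent.Results.MP_c81d26_co.EqualityOracle
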