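import Pool.Agent.X149.EntropyKomlos

/-!
# The Komlós problem for vectors from sets of small metric entropy

The proof is a chaining argument: pairs of vectors in the same small cell get opposite signs, the
few remaining vectors are signed with the known bound, and the differences of the pairs, which are
short vectors from a difference set of controlled entropy, are treated in the same way.
-/

set_option autoImplicit false

open Finset
open Pool.Agent.X149.EntropyKomlos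

namespace Pool.Agent.Results.MP_c81d26_co.MetricEntropy

/-- `T` is contained in a union of `N` sets of diameter at most `η`. -/
def Covered {d : ℕ} (T : Set (EuclideanSpace ℝ (Fin d))) (N : ℕ) (η : ℝ) : Prop :=
  ∃ U : Fin N → Set (EuclideanSpace ℝ (Fin d)), T ⊆ ⋃ i, U i ∧
    ∀ i, ∀ x ∈ U i, ∀ y ∈ U i, ‖x - y‖ ≤ η

/-- The metric entropy of `T` at every scale `η ≤ 1` is at most `K η ^ (-p)`: `T` is contained in a
union of at most `exp (K η ^ (-p))` sets of diameter at most `η`. -/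
def Entropy {d : ℕ} (p K : ℝ) (T : Set (EuclideanSpace ℝ (Fin d))) : Prop :=
  ∀ η : ℝ, 0 < η → η ≤ 1 → ∃ N : ℕ, (N : ℝ) ≤ Real.exp (K * η ^ (-p)) ∧ Covered T N η

/-- Some signing of the vectors `v 0, …, v (n - 1)` has value at most `B`. -/
def Signing {d n : ℕ} (v : Fin n → EuclideanSpace ℝ (Fin d)) (B : ℝ) : Prop :=
  ∃ x : Fin n → ℝ, (∀ j, x j = 1 ∨ x j = -1) ∧ ∀ i, |∑ j, x j * v j i| ≤ B

lemma cell_of_covered {d : ℕ} {T : Set (EuclideanSpace ℝ (Fin d))} {N : ℕ} {η : ℝ}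
    (h : Covered T N η) (hT : T.Nonempty) : Cell T N η := by
  classical
  obtain ⟨U, hU, hd⟩ := h
  obtain ⟨x0, hx0⟩ := hT
  obtain ⟨i0, _⟩ := Set.mem_iUnion.1 (hU hx0)
  refine ⟨fun x => if hx : ∃ i, x ∈ U i then hx.choose else i0, ?_⟩
  intro x hx y hy hxy
  have h1 : ∃ i, x ∈ U i := Set.mem_iUnion.1 (hU hx)
  have h2 : ∃ i, y ∈ U i := Set.mem_iUnion.1 (hU hy)
  simp only [dif_pos h1, dif_pos h2] at hxy
  refine hd h1.choose x h1.choose_spec y ?_
  rw [hxy]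
  exact h2.choose_spec

lemma cell_pos {d : ℕ} {T : Set (EuclideanSpace ℝ (Fin d))} {N : ℕ} {η : ℝ} (h : Cell T N η) :
    1 ≤ N := by
  obtain ⟨f, _⟩ := h
  have := (f 0).pos
  omega

/-- the radii -/
noncomputable def rho (a : ℕ) (s : ℕ) : ℝ := ((2 : ℝ) ^ (a * s))⁻¹

lemma rho_pos (a s : ℕ) : 0 < rho a s := by unfold rho; positivity

/-- the constant of a level -/
noncomputable def lev (a : ℕ) (p K : ℝ) : ℝ :=
  70000000 * ((2 : ℝ) ^ (p * a / 4) * (2 * (1 + K)) ^ (1 / 4 : ℝ))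

/-- the ratio of two levels -/
noncomputable def rat (a : ℕ) (p : ℝ) : ℝ := (2 : ℝ) ^ ((1 + p + (p - 4) * a) / 4)

/-- the cost of one level -/
theorem level {d : ℕ} {T : Set (EuclideanSpace ℝ (Fin d))} {p K : ℝ} (hp : 0 < p) (hK : 0 ≤ K)
    (hT : T.Nonempty) (hE : Entropy p K T) (a s : ℕ) :
    ∃ N : ℕ, Cell (Tq T (rho a) s) N (rho a (s + 1)) ∧ cost (rho a s) N ≤ lev a p K * rat a p ^ s := by
  have hη : (0 : ℝ) < ((2 : ℝ) ^ (a * (s + 1) + s))⁻¹ := by positivity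
  have hη1 : ((2 : ℝ) ^ (a * (s + 1) + s))⁻¹ ≤ 1 := by
    rw [inv_le_one₀ (by positivity)]
    exact one_le_pow₀ (by norm_num)
  obtain ⟨N, hN, hC⟩ := hE _ hη hη1
  have hcell := cell_of_covered hC hT
  have hN1 := cell_pos hcell
  have h1 := cell_Tq (ρ := rho a) hcell s
  have e1 : (2 : ℝ) ^ s * ((2 : ℝ) ^ (a * (s + 1) + s))⁻¹ = rho a (s + 1) := by
    unfold rho
    rw [pow_add]
    field_simp
  rw [e1] at h1
  refine ⟨N ^ (2 ^ s), h1, ?_⟩
  -- the logarithm of the number of cells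
  set Y : ℝ := (2 : ℝ) ^ ((s : ℝ) + p * (a * (s + 1) + s)) with hY
  have hs0 : (0 : ℝ) ≤ s := Nat.cast_nonneg _
  have ha0 : (0 : ℝ) ≤ a := Nat.cast_nonneg _
  have hY1 : 1 ≤ Y := Real.one_le_rpow (by norm_num) (by positivity)
  have eη : (((2 : ℝ) ^ (a * (s + 1) + s))⁻¹) ^ (-p) = (2 : ℝ) ^ (p * (a * (s + 1) + s)) := by
    rw [← Real.rpow_natCast 2, ← Real.rpow_neg (by norm_num), ← Real.rpow_mul (by norm_num)]
    congr 1
    push_cast
    ring
  rw [eη] at hN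
  have hNr : (1 : ℝ) ≤ N := by exact_mod_cast hN1
  have hlogN : Real.log N ≤ K * (2 : ℝ) ^ (p * (a * (s + 1) + s)) := by
    rw [Real.log_le_iff_le_exp (by linarith)]
    exact hN
  have hlogM : Real.log ((N ^ (2 ^ s) : ℕ) : ℝ) ≤ K * Y := by
    push_cast
    rw [Real.log_pow]
    push_cast
    have e2 : Y = (2 : ℝ) ^ s * (2 : ℝ) ^ (p * (a * (s + 1) + s)) := by
      rw [hY, Real.rpow_add (by norm_num), Real.rpow_natCast]
    rw [e2]
    calc (2 : ℝ) ^ s * Real.log N ≤ 2 ^ s * (K * (2 : ℝ) ^ (p * (a * (s + 1) + s))) := by gcongr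
      _ = _ := by ring
  have hM1 : (1 : ℝ) ≤ ((N ^ (2 ^ s) : ℕ) : ℝ) := by
    push_cast
    exact one_le_pow₀ hNr
  have hlog : 1 + Real.log (1 + ((N ^ (2 ^ s) : ℕ) : ℝ)) ≤ 2 * (1 + K) * Y := by
    have h2 : Real.log (1 + ((N ^ (2 ^ s) : ℕ) : ℝ)) ≤
        Real.log 2 + Real.log ((N ^ (2 ^ s) : ℕ) : ℝ) := by
      rw [← Real.log_mul (by norm_num) (by linarith)]
      exact Real.log_le_log (by linarith) (by linarith)
    have h3 : Real.log 2 ≤ 1 := by
      have := Real.log_two_lt_d9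
      linarith
    have h4 : 0 ≤ K * Y := by positivity
    nlinarith
  have hlog0 : 0 ≤ 1 + Real.log (1 + ((N ^ (2 ^ s) : ℕ) : ℝ)) := by
    have := Real.log_nonneg (show (1 : ℝ) ≤ 1 + ((N ^ (2 ^ s) : ℕ) : ℝ) by linarith)
    linarith
  unfold cost
  calc rho a s * (70000000 * (1 + Real.log (1 + ((N ^ (2 ^ s) : ℕ) : ℝ))) ^ (1 / 4 : ℝ))
      ≤ rho a s * (70000000 * (2 * (1 + K) * Y) ^ (1 / 4 : ℝ)) := by
        have := rho_pos a s
        gcongr
    _ = lev a p K * rat a p ^ s := by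
        rw [Real.mul_rpow (by positivity) (by positivity), hY, ← Real.rpow_mul (by norm_num)]
        unfold lev rat rho
        rw [← Real.rpow_natCast 2 (a * s), ← Real.rpow_neg (by norm_num),
          ← Real.rpow_natCast ((2 : ℝ) ^ ((1 + p + (p - 4) * a) / 4)), ← Real.rpow_mul (by norm_num)]
        have e3 : (2 : ℝ) ^ (-((a * s : ℕ) : ℝ)) *
            (2 : ℝ) ^ (((s : ℝ) + p * (a * (s + 1) + s)) * (1 / 4)) =
            (2 : ℝ) ^ (p * a / 4) * (2 : ℝ) ^ ((1 + p + (p - 4) * a) / 4 * (s : ℝ)) := by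
          rw [← Real.rpow_add (by norm_num), ← Real.rpow_add (by norm_num)]
          congr 1
          push_cast
          ring
        calc (2 : ℝ) ^ (-((a * s : ℕ) : ℝ)) * (70000000 * ((2 * (1 + K)) ^ (1 / 4 : ℝ) *
              (2 : ℝ) ^ (((s : ℝ) + p * (a * (s + 1) + s)) * (1 / 4))))
            = 70000000 * (2 * (1 + K)) ^ (1 / 4 : ℝ) * ((2 : ℝ) ^ (-((a * s : ℕ) : ℝ)) *
              (2 : ℝ) ^ (((s : ℝ) + p * (a * (s + 1) + s)) * (1 / 4))) := by ring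
          _ = _ := by rw [e3]; ring

/-- the bound with `S` levels -/
theorem levels {d : ℕ} {T : Set (EuclideanSpace ℝ (Fin d))} {p K : ℝ} (hp : 0 < p) (hK : 0 ≤ K)
    (hT : ∀ x ∈ T, ‖x‖ ≤ 1) (hE : Entropy p K T) (a S n : ℕ) (hn : 1 ≤ n)
    (v : Fin n → EuclideanSpace ℝ (Fin d)) (hv : ∀ j, v j ∈ T) :
    Signing v (∑ u ∈ Finset.range S, lev a p K * rat a p ^ u + cost (rho a S) (min d n)) := by
  have hne : T.Nonempty := ⟨_, hv ⟨0, hn⟩⟩
  choose N hN using level hp hK hne hE a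
  obtain ⟨x, hx1, hx2⟩ := chain (T := T) (ρ := rho a) (rho_pos a)
    (fun x hx => by simpa [rho] using hT x hx) N n S (fun s _ => (hN s).1) S 0 (by omega) n v le_rfl
    (by simpa [Tq] using hv)
  refine ⟨x, hx1, fun i => (hx2 i).trans ?_⟩
  rw [Finset.range_eq_Ico]
  gcongr with u hu
  exact (hN u).2

lemma Signing.mono {d n : ℕ} {v : Fin n → EuclideanSpace ℝ (Fin d)} {B B' : ℝ} (h : Signing v B)
    (hB : B ≤ B') : Signing v B' := by
  obtain ⟨x, h1, h2⟩ := h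
  exact ⟨x, h1, fun i => (h2 i).trans hB⟩

lemma signing_zero {d : ℕ} (v : Fin 0 → EuclideanSpace ℝ (Fin d)) {B : ℝ} (hB : 0 ≤ B) :
    Signing v B := ⟨fun _ => 1, fun j => j.elim0, fun i => by simpa using hB⟩

lemma lev_eq (a : ℕ) (p K : ℝ) (hK : 0 ≤ K) :
    lev a p K = 70000000 * ((2 : ℝ) ^ (p * a / 4) * 2 ^ (1 / 4 : ℝ)) * (1 + K) ^ (1 / 4 : ℝ) := by
  unfold lev
  rw [Real.mul_rpow (by norm_num) (by linarith)]
  ring

lemma one_le_L (k : ℕ) : 1 ≤ 1 + Real.log (1 + (k : ℝ)) := by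
  have := Real.log_nonneg (show (1 : ℝ) ≤ 1 + (k : ℝ) by
    have : (0 : ℝ) ≤ k := Nat.cast_nonneg _
    linarith)
  linarith

/-- small entropy -/
theorem part1 (p : ℝ) (hp : 0 < p) (hp4 : p < 4) : ∃ C : ℝ, 0 < C ∧ ∀ (K : ℝ), 0 ≤ K →
    ∀ (d : ℕ) (T : Set (EuclideanSpace ℝ (Fin d))), (∀ x ∈ T, ‖x‖ ≤ 1) → Entropy p K T →
      ∀ (n : ℕ) (v : Fin n → EuclideanSpace ℝ (Fin d)), (∀ j, v j ∈ T) →
        Signing v (C * (1 + K) ^ (1 / 4 : ℝ)) := by
  obtain ⟨a, ha⟩ := exists_nat_ge ((5 + p) / (4 - p))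
  rw [div_le_iff₀ (by linarith)] at ha
  have ha1 : 1 ≤ a := by
    rcases Nat.eq_zero_or_pos a with h | h
    · rw [h] at ha; norm_num at ha; linarith
    · exact h
  refine ⟨2 * (70000000 * ((2 : ℝ) ^ (p * a / 4) * 2 ^ (1 / 4 : ℝ))) + 70000000, by positivity,
    fun K hK d T hT hE n v hv => ?_⟩
  have hK1 : 1 ≤ (1 + K) ^ (1 / 4 : ℝ) := Real.one_le_rpow (by linarith) (by norm_num)
  rcases Nat.eq_zero_or_pos n with rfl | hn
  · exact signing_zero v (by positivity)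
  set X : ℝ := (1 + Real.log (1 + ((min d n : ℕ) : ℝ))) ^ (1 / 4 : ℝ) with hX
  obtain ⟨S, hS⟩ := pow_unbounded_of_one_lt X (one_lt_two (α := ℝ))
  refine (levels hp hK hT hE a S n hn v hv).mono ?_
  have hr : rat a p ≤ 1 / 2 := by
    unfold rat
    calc (2 : ℝ) ^ ((1 + p + (p - 4) * a) / 4) ≤ (2 : ℝ) ^ (-1 : ℝ) :=
          Real.rpow_le_rpow_of_exponent_le (by norm_num) (by linarith)
      _ = 1 / 2 := by rw [Real.rpow_neg_one]; norm_num
  have hr0 : 0 ≤ rat a p := by unfold rat; positivity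
  have hlev : 0 ≤ lev a p K := by unfold lev; positivity
  have hgeo : ∀ S : ℕ, ∑ u ∈ Finset.range S, (1 / 2 : ℝ) ^ u = 2 - 2 * (1 / 2) ^ S := by
    intro S
    induction S with
    | zero => simp
    | succ S ih => rw [Finset.sum_range_succ, ih, pow_succ]; ring
  have h1 : ∑ u ∈ Finset.range S, lev a p K * rat a p ^ u ≤ 2 * lev a p K := by
    rw [← Finset.mul_sum]
    have h2 : ∑ u ∈ Finset.range S, rat a p ^ u ≤ 2 := by
      calc ∑ u ∈ Finset.range S, rat a p ^ u ≤ ∑ u ∈ Finset.range S, (1 / 2 : ℝ) ^ u := by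
            refine Finset.sum_le_sum fun u _ => ?_
            exact pow_le_pow_left₀ hr0 hr u
        _ ≤ 2 := by
            rw [hgeo]
            have : (0 : ℝ) ≤ (1 / 2) ^ S := by positivity
            linarith
    nlinarith
  have h3 : cost (rho a S) (min d n) ≤ 70000000 := by
    unfold cost rho
    rw [← hX]
    have h4 : X ≤ 2 ^ (a * S) := hS.le.trans (pow_le_pow_right₀ (by norm_num) (by nlinarith))
    rw [← mul_assoc, mul_comm _ (70000000 : ℝ), mul_assoc]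
    have h5 : ((2 : ℝ) ^ (a * S))⁻¹ * X ≤ 1 := by
      rw [inv_mul_le_iff₀ (by positivity), mul_one]
      exact h4
    linarith
  have h5 := lev_eq a p K hK
  set M : ℝ := 70000000 * ((2 : ℝ) ^ (p * a / 4) * 2 ^ (1 / 4 : ℝ)) with hM
  calc ∑ u ∈ Finset.range S, lev a p K * rat a p ^ u + cost (rho a S) (min d n)
      ≤ 2 * lev a p K + 70000000 := add_le_add h1 h3
    _ = 2 * M * (1 + K) ^ (1 / 4 : ℝ) + 70000000 * 1 := by rw [h5]; ring
    _ ≤ 2 * M * (1 + K) ^ (1 / 4 : ℝ) + 70000000 * (1 + K) ^ (1 / 4 : ℝ) := by gcongr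
    _ = _ := by ring

/-- large entropy -/
theorem part2 (p ε : ℝ) (hp : 4 ≤ p) (hε : 0 < ε) : ∃ C : ℝ, 0 < C ∧ ∀ (K : ℝ), 0 ≤ K →
    ∀ (d : ℕ) (T : Set (EuclideanSpace ℝ (Fin d))), (∀ x ∈ T, ‖x‖ ≤ 1) → Entropy p K T →
      ∀ (n : ℕ) (v : Fin n → EuclideanSpace ℝ (Fin d)), (∀ j, v j ∈ T) →
        Signing v (C * (1 + K) ^ (1 / 4 : ℝ) *
          (1 + Real.log (1 + ((min d n : ℕ) : ℝ))) ^ (1 / 4 - 1 / p + ε)) := by
  have hp0 : 0 < p := by linarith
  obtain ⟨a, ha⟩ := exists_nat_ge (max 1 ((1 + p) / (p * p * ε)))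
  have ha1 : 1 ≤ a := by exact_mod_cast (le_max_left _ _).trans ha
  have ha1r : (1 : ℝ) ≤ a := by exact_mod_cast ha1
  have ha2 : (1 + p) ≤ a * (p * p * ε) := by
    have := (le_max_right _ _).trans ha
    rwa [div_le_iff₀ (by positivity)] at this
  refine ⟨(70000000 * ((2 : ℝ) ^ (p * a / 4) * 2 ^ (1 / 4 : ℝ)) + 70000000) * 2 ^ a, by positivity,
    fun K hK d T hT hE n v hv => ?_⟩
  have hK1 : 1 ≤ (1 + K) ^ (1 / 4 : ℝ) := Real.one_le_rpow (by linarith) (by norm_num)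
  set L : ℝ := 1 + Real.log (1 + ((min d n : ℕ) : ℝ)) with hL
  have hL1 : 1 ≤ L := one_le_L _
  rcases Nat.eq_zero_or_pos n with rfl | hn
  · exact signing_zero v (by positivity)
  set e : ℝ := 1 + p * (a + 1) with he
  have he0 : 0 < e := by positivity
  have hB : (1 : ℝ) < (2 : ℝ) ^ e := Real.one_lt_rpow (by norm_num) he0
  obtain ⟨S, hS1, hS2⟩ := exists_nat_pow_near hL1 hB
  refine (levels hp0 hK hT hE a S n hn v hv).mono ?_
  have hr0 : 0 ≤ rat a p := by unfold rat; positivity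
  have hr2 : 2 ≤ rat a p := by
    unfold rat
    calc (2 : ℝ) = (2 : ℝ) ^ (1 : ℝ) := by rw [Real.rpow_one]
      _ ≤ _ := Real.rpow_le_rpow_of_exponent_le (by norm_num) (by nlinarith)
  have hlev : 0 ≤ lev a p K := by unfold lev; positivity
  have hgeo : ∀ S : ℕ, ∑ u ∈ Finset.range S, rat a p ^ u ≤ rat a p ^ S := by
    intro S
    induction S with
    | zero => simp
    | succ S ih =>
      rw [Finset.sum_range_succ, pow_succ]
      have : 0 ≤ rat a p ^ S := by positivity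
      nlinarith
  -- the last ratio
  have hrS : rat a p ^ S ≤ rho a S * L ^ (1 / 4 : ℝ) := by
    have h1 : rat a p ^ S = rho a S * (((2 : ℝ) ^ e) ^ S) ^ (1 / 4 : ℝ) := by
      unfold rat rho
      rw [← Real.rpow_natCast 2 (a * S), ← Real.rpow_neg (by positivity), ← Real.rpow_natCast,
        ← Real.rpow_natCast, ← Real.rpow_mul (by positivity), ← Real.rpow_mul (by positivity),
        ← Real.rpow_mul (by positivity), ← Real.rpow_add (by positivity)]
      congr 1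
      push_cast
      rw [he]
      ring
    rw [h1]
    have := rho_pos a S
    gcongr
  have hcost : cost (rho a S) (min d n) = 70000000 * (rho a S * L ^ (1 / 4 : ℝ)) := by
    unfold cost
    rw [← hL]
    ring
  set θ : ℝ := a / e with hθ
  have hθL : rho a S ≤ 2 ^ a * L ^ (-θ) := by
    have h1 : L ^ θ ≤ 2 ^ (a * (S + 1)) := by
      calc L ^ θ ≤ (((2 : ℝ) ^ e) ^ (S + 1)) ^ θ :=
            Real.rpow_le_rpow (by linarith) hS2.le (by positivity)
        _ = 2 ^ (a * (S + 1)) := by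
            rw [← Real.rpow_natCast, ← Real.rpow_mul (by positivity), ← Real.rpow_mul (by positivity),
              ← Real.rpow_natCast 2]
            congr 1
            push_cast
            rw [hθ]
            field_simp
    rw [Real.rpow_neg (by linarith)]
    have h2 : 0 < L ^ θ := by positivity
    unfold rho
    rw [inv_le_iff_one_le_mul₀ (by positivity)]
    have h3 : (2 : ℝ) ^ (a * (S + 1)) = 2 ^ (a * S) * 2 ^ a := by rw [mul_add, mul_one, pow_add]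
    rw [h3] at h1
    have h4 : (L ^ θ)⁻¹ * L ^ θ = 1 := inv_mul_cancel₀ h2.ne'
    calc (1 : ℝ) = (L ^ θ)⁻¹ * L ^ θ := h4.symm
      _ ≤ (L ^ θ)⁻¹ * (2 ^ (a * S) * 2 ^ a) := by gcongr
      _ = _ := by ring
  have hθp : 1 / 4 - θ ≤ 1 / 4 - 1 / p + ε := by
    have : 1 / p - ε ≤ θ := by
      rw [hθ, he, le_div_iff₀ (by positivity), sub_mul, one_div_mul_eq_div, sub_le_iff_le_add,
        div_le_iff₀ hp0]
      nlinarith [mul_pos hp0 hε, mul_pos (mul_pos hp0 hp0) hε]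
    linarith
  have hfin : rho a S * L ^ (1 / 4 : ℝ) ≤ 2 ^ a * L ^ (1 / 4 - 1 / p + ε) := by
    calc rho a S * L ^ (1 / 4 : ℝ) ≤ (2 ^ a * L ^ (-θ)) * L ^ (1 / 4 : ℝ) := by gcongr
      _ = 2 ^ a * L ^ (1 / 4 - θ) := by
          rw [mul_assoc, ← Real.rpow_add (by linarith)]
          congr 2
          ring
      _ ≤ _ := by
          gcongr
  calc ∑ u ∈ Finset.range S, lev a p K * rat a p ^ u + cost (rho a S) (min d n)
      ≤ lev a p K * (rho a S * L ^ (1 / 4 : ℝ)) + 70000000 * (rho a S * L ^ (1 / 4 : ℝ)) := by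
        rw [← Finset.mul_sum, hcost]
        gcongr
        exact (hgeo S).trans hrS
    _ = (lev a p K + 70000000) * (rho a S * L ^ (1 / 4 : ℝ)) := by ring
    _ ≤ (lev a p K + 70000000) * (2 ^ a * L ^ (1 / 4 - 1 / p + ε)) := by gcongr
    _ ≤ _ := by
        rw [lev_eq a p K hK]
        have h6 : 0 ≤ (2 : ℝ) ^ a * L ^ (1 / 4 - 1 / p + ε) := by positivity
        have h7 : 70000000 * ((2 : ℝ) ^ (p * a / 4) * 2 ^ (1 / 4 : ℝ)) * (1 + K) ^ (1 / 4 : ℝ) + 70000000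
            ≤ (70000000 * ((2 : ℝ) ^ (p * a / 4) * 2 ^ (1 / 4 : ℝ)) + 70000000) * (1 + K) ^ (1 / 4 : ℝ) := by
          nlinarith
        calc _ ≤ ((70000000 * ((2 : ℝ) ^ (p * a / 4) * 2 ^ (1 / 4 : ℝ)) + 70000000) *
              (1 + K) ^ (1 / 4 : ℝ)) * (2 ^ a * L ^ (1 / 4 - 1 / p + ε)) := by gcongr
          _ = _ := by ring

lemma covered_of {d : ℕ} {α : Type} [Fintype α] {T : Set (EuclideanSpace ℝ (Fin d))} {η : ℝ}
    (U : α → Set (EuclideanSpace ℝ (Fin d))) (hU : ∀ x ∈ T, ∃ i, x ∈ U i)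
    (hd : ∀ i, ∀ x ∈ U i, ∀ y ∈ U i, ‖x - y‖ ≤ η) : Covered T (Fintype.card α) η := by
  refine ⟨fun i => U ((Fintype.equivFin α).symm i), fun x hx => ?_, fun i => hd _⟩
  obtain ⟨i, hi⟩ := hU x hx
  exact Set.mem_iUnion.2 ⟨Fintype.equivFin α i, by simpa using hi⟩

/-- the `i`-th coordinate in an orthonormal basis of `W` (`0` if there is none) -/
noncomputable def coord {d : ℕ} (W : Submodule ℝ (EuclideanSpace ℝ (Fin d))) (i : ℕ) (x : W) : ℝ :=
  if h : i < Module.finrank ℝ W then (stdOrthonormalBasis ℝ W).repr x ⟨i, h⟩ else 0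

lemma coord_le {d : ℕ} (W : Submodule ℝ (EuclideanSpace ℝ (Fin d))) (i : ℕ) (x : W)
    (hx : ‖x‖ ≤ 1) : |coord W i x| ≤ 1 := by
  unfold coord
  by_cases h : i < Module.finrank ℝ W
  · rw [dif_pos h]
    have h1 : ‖(stdOrthonormalBasis ℝ W).repr x‖ ≤ 1 := by
      rw [LinearIsometryEquiv.norm_map]; exact hx
    have h2 := PiLp.norm_apply_le ((stdOrthonormalBasis ℝ W).repr x) ⟨i, h⟩
    rw [Real.norm_eq_abs] at h2
    exact h2.trans h1
  · rw [dif_neg h]; simp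

lemma coord_sub {d : ℕ} (W : Submodule ℝ (EuclideanSpace ℝ (Fin d))) (r : ℕ)
    (hr : Module.finrank ℝ W ≤ r) (x y : W) (δ : ℝ) (hδ : 0 ≤ δ)
    (h : ∀ i : Fin r, |coord W i x - coord W i y| ≤ δ) : ‖x - y‖ ≤ Real.sqrt r * δ := by
  rw [← (stdOrthonormalBasis ℝ W).repr.norm_map (x - y), map_sub, EuclideanSpace.norm_eq]
  rw [← Real.sqrt_sq hδ, ← Real.sqrt_mul (Nat.cast_nonneg _)]
  refine Real.sqrt_le_sqrt ?_
  calc ∑ i, ‖((stdOrthonormalBasis ℝ W).repr x - (stdOrthonormalBasis ℝ W).repr y) i‖ ^ 2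
      ≤ ∑ _i : Fin (Module.finrank ℝ W), δ ^ 2 := by
        refine Finset.sum_le_sum fun i _ => ?_
        have h1 := h ⟨i, i.2.trans_le hr⟩
        unfold coord at h1
        simp only [i.2, dif_pos, Fin.eta] at h1
        rw [PiLp.sub_apply, Real.norm_eq_abs]
        exact pow_le_pow_left₀ (abs_nonneg _) h1 2
    _ = Module.finrank ℝ W * δ ^ 2 := by simp
    _ ≤ r * δ ^ 2 := by gcongr

/-- the entropy of the unit balls of `k` subspaces of dimension at most `r` -/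
theorem entropy_sub {d k r : ℕ} (hk : 1 ≤ k) (hr : 1 ≤ r)
    (W : Fin k → Submodule ℝ (EuclideanSpace ℝ (Fin d))) (hW : ∀ l, Module.finrank ℝ (W l) ≤ r) :
    Entropy 1 (Real.log k + r * (1 + Real.log (2 * Real.sqrt r + 3)))
      {x | ‖x‖ ≤ 1 ∧ ∃ l, x ∈ W l} := by
  classical
  intro η hη hη1
  have hrr : (1 : ℝ) ≤ r := by exact_mod_cast hr
  have hsr : 1 ≤ Real.sqrt r := by rw [Real.one_le_sqrt]; exact hrr
  obtain ⟨M, hM⟩ : ∃ M : ℕ, M = ⌈Real.sqrt r / η⌉₊ := ⟨_, rfl⟩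
  have hM1 : Real.sqrt r / η ≤ M := by rw [hM]; exact Nat.le_ceil _
  have hM2 : (M : ℝ) < Real.sqrt r / η + 1 := by rw [hM]; exact Nat.ceil_lt_add_one (by positivity)
  have hM0 : (0 : ℝ) < M := lt_of_lt_of_le (by positivity) hM1
  refine ⟨Fintype.card (Fin k × (Fin r → Fin (2 * M + 1))), ?_, ?_⟩
  · rw [Fintype.card_prod, Fintype.card_fun, Fintype.card_fin, Fintype.card_fin, Fintype.card_fin]
    have hkr : (1 : ℝ) ≤ k := by exact_mod_cast hk
    have h1 : (0 : ℝ) < ((k * (2 * M + 1) ^ r : ℕ) : ℝ) := by positivity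
    rw [← Real.log_le_iff_le_exp h1]
    push_cast
    rw [Real.log_mul (by positivity) (by positivity), Real.log_pow, Real.rpow_neg_one]
    have h2 : (2 * (M : ℝ) + 1) ≤ (2 * Real.sqrt r + 3) * η⁻¹ := by
      have h3 : 1 ≤ η⁻¹ := (one_le_inv₀ hη).2 hη1
      rw [div_eq_mul_inv] at hM2
      nlinarith
    have h4 : Real.log (2 * (M : ℝ) + 1) ≤ Real.log (2 * Real.sqrt r + 3) + η⁻¹ := by
      refine (Real.log_le_log (by positivity) h2).trans ?_
      rw [Real.log_mul (by positivity) (by positivity)]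
      have := Real.log_le_sub_one_of_pos (show (0 : ℝ) < η⁻¹ by positivity)
      linarith
    have h5 : 1 ≤ η⁻¹ := (one_le_inv₀ hη).2 hη1
    have h6 : 0 ≤ Real.log k := Real.log_nonneg hkr
    have h7 : 0 ≤ Real.log (2 * Real.sqrt r + 3) := Real.log_nonneg (by linarith)
    calc Real.log k + r * Real.log (2 * (M : ℝ) + 1)
        ≤ Real.log k * 1 + r * (Real.log (2 * Real.sqrt r + 3) * 1 + η⁻¹) := by
          rw [mul_one, mul_one]; gcongr
      _ ≤ Real.log k * η⁻¹ + r * (Real.log (2 * Real.sqrt r + 3) * η⁻¹ + η⁻¹) := by gcongr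
      _ = _ := by ring
  · -- the cells
    have hcell : ∀ t : ℝ, |t| ≤ 1 → ((⌊t * M⌋ + M).toNat : ℤ) = ⌊t * M⌋ + M ∧
        (⌊t * M⌋ + M).toNat < 2 * M + 1 := by
      intro t ht
      rw [abs_le] at ht
      have h1 : -(M : ℤ) ≤ ⌊t * M⌋ := by
        rw [Int.le_floor]
        push_cast
        nlinarith
      have h2 : ⌊t * M⌋ ≤ (M : ℤ) := by
        have : ⌊t * M⌋ ≤ ⌊(M : ℝ)⌋ := Int.floor_le_floor (by nlinarith)
        simpa using this
      constructor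
      · rw [Int.toNat_of_nonneg]; omega
      · omega
    refine covered_of (fun c : Fin k × (Fin r → Fin (2 * M + 1)) =>
      {x | ∃ hx : x ∈ W c.1, ‖x‖ ≤ 1 ∧
        ∀ i : Fin r, ⌊coord (W c.1) i ⟨x, hx⟩ * M⌋ + M = ((c.2 i : ℕ) : ℤ)}) ?_ ?_
    · rintro x ⟨hx1, l, hx⟩
      refine ⟨(l, fun i => ⟨(⌊coord (W l) i ⟨x, hx⟩ * M⌋ + M).toNat,
        (hcell _ (coord_le (W l) i ⟨x, hx⟩ hx1)).2⟩), hx, hx1, fun i => ?_⟩
      exact (hcell _ (coord_le (W l) i ⟨x, hx⟩ hx1)).1.symm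
    · rintro ⟨l, c⟩ x ⟨hx, hx1, hxc⟩ y ⟨hy, hy1, hyc⟩
      have h1 : ∀ i : Fin r, |coord (W l) i ⟨x, hx⟩ - coord (W l) i ⟨y, hy⟩| ≤ 1 / M := by
        intro i
        have h2 : ⌊coord (W l) i ⟨x, hx⟩ * M⌋ = ⌊coord (W l) i ⟨y, hy⟩ * M⌋ := by
          have e1 := hxc i
          have e2 := hyc i
          simp only at e1 e2
          omega
        have h3 := Int.abs_sub_lt_one_of_floor_eq_floor h2
        rw [← sub_mul, abs_mul, abs_of_pos hM0] at h3
        rw [le_div_iff₀ hM0]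
        exact h3.le
      have h4 := coord_sub (W l) r (hW l) ⟨x, hx⟩ ⟨y, hy⟩ (1 / M) (by positivity) h1
      have h5 : ‖x - y‖ = ‖(⟨x, hx⟩ : W l) - ⟨y, hy⟩‖ := rfl
      rw [h5]
      refine h4.trans ?_
      rw [mul_one_div, div_le_iff₀ hM0]
      rw [div_le_iff₀ hη] at hM1
      linarith

/-- vectors in `k` subspaces of dimension `r` -/
theorem part3 : ∃ C : ℝ, 0 < C ∧ ∀ k r : ℕ, 1 ≤ k → 1 ≤ r → ∀ (d : ℕ)
    (W : Fin k → Submodule ℝ (EuclideanSpace ℝ (Fin d))), (∀ l, Module.finrank ℝ (W l) ≤ r) →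
      ∀ (n : ℕ) (v : Fin n → EuclideanSpace ℝ (Fin d)), (∀ j, ‖v j‖ ≤ 1) → (∀ j, ∃ l, v j ∈ W l) →
        Signing v (C * (1 + Real.log k + r * Real.log (1 + r)) ^ (1 / 4 : ℝ)) := by
  obtain ⟨C, hC, h⟩ := part1 1 one_pos (by norm_num)
  refine ⟨C * 9 ^ (1 / 4 : ℝ), by positivity, fun k r hk hr d W hW n v hv1 hv2 => ?_⟩
  have hkr : (1 : ℝ) ≤ k := by exact_mod_cast hk
  have hrr : (1 : ℝ) ≤ r := by exact_mod_cast hr
  have hsr : 1 ≤ Real.sqrt r := by rw [Real.one_le_sqrt]; exact hrr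
  have h6 : 0 ≤ Real.log k := Real.log_nonneg hkr
  have h7 : 0 ≤ Real.log (2 * Real.sqrt r + 3) := Real.log_nonneg (by linarith)
  refine (h (Real.log k + r * (1 + Real.log (2 * Real.sqrt r + 3))) (by positivity) d
    {x | ‖x‖ ≤ 1 ∧ ∃ l, x ∈ W l} (fun x hx => hx.1) (entropy_sub hk hr W hW) n v
    (fun j => ⟨hv1 j, hv2 j⟩)).mono ?_
  have h8 : Real.log 2 ≤ Real.log (1 + r) := Real.log_le_log (by norm_num) (by linarith)
  have h9 := Real.log_two_gt_d9
  have h10 : Real.log (2 * Real.sqrt r + 3) ≤ 4 + Real.log (1 + r) := by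
    have h11 : Real.sqrt r ≤ r := by
      have := Real.mul_self_sqrt (show (0 : ℝ) ≤ r by linarith)
      nlinarith
    calc Real.log (2 * Real.sqrt r + 3) ≤ Real.log (5 * (1 + r)) :=
          Real.log_le_log (by linarith) (by linarith)
      _ = Real.log 5 + Real.log (1 + r) := by rw [Real.log_mul (by norm_num) (by linarith)]
      _ ≤ _ := by
          have := Real.log_le_sub_one_of_pos (show (0 : ℝ) < 5 by norm_num)
          linarith
  have h12 : 1 + (Real.log k + r * (1 + Real.log (2 * Real.sqrt r + 3))) ≤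
      9 * (1 + Real.log k + r * Real.log (1 + r)) := by
    have h13 : 1 + Real.log (2 * Real.sqrt r + 3) ≤ 9 * Real.log (1 + r) := by linarith
    have h14 : (r : ℝ) * (1 + Real.log (2 * Real.sqrt r + 3)) ≤ r * (9 * Real.log (1 + r)) := by
      gcongr
    nlinarith
  have h15 : 0 ≤ Real.log (1 + (r : ℝ)) := by linarith
  calc C * (1 + (Real.log k + r * (1 + Real.log (2 * Real.sqrt r + 3)))) ^ (1 / 4 : ℝ)
      ≤ C * (9 * (1 + Real.log k + r * Real.log (1 + r))) ^ (1 / 4 : ℝ) := by gcongr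
    _ = _ := by
        rw [Real.mul_rpow (by norm_num) (by positivity)]
        ring

/-- Let `T` be a subset of the Euclidean unit ball of `ℝ^d` with metric entropy at most `K η ^ (-p)`
at all scales `η ≤ 1`.

1. If `p < 4`, then all finite families of vectors from `T` have signings of value at most
`C (1 + K)^{1/4}`, where `C` depends only on `p`: no dependence on the number of vectors or on `d`.

2. If `p ≥ 4` and `ε > 0`, they have signings of value at most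
`C (1 + K)^{1/4} (1 + log (1 + min d n))^{1/4 - 1/p + ε}`, where `C` depends only on `p` and `ε`.

3. Vectors of norm at most one in a union of `k` subspaces of dimension at most `r` have signings of
value at most `C (1 + log k + r log (1 + r))^{1/4}`. -/
theorem result :
    (∀ p : ℝ, 0 < p → p < 4 → ∃ C : ℝ, 0 < C ∧ ∀ K : ℝ, 0 ≤ K →
      ∀ (d : ℕ) (T : Set (EuclideanSpace ℝ (Fin d))), (∀ x ∈ T, ‖x‖ ≤ 1) → Entropy p K T →
        ∀ (n : ℕ) (v : Fin n → EuclideanSpace ℝ (Fin d)), (∀ j, v j ∈ T) →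
          Signing v (C * (1 + K) ^ (1 / 4 : ℝ))) ∧
    (∀ p ε : ℝ, 4 ≤ p → 0 < ε → ∃ C : ℝ, 0 < C ∧ ∀ K : ℝ, 0 ≤ K →
      ∀ (d : ℕ) (T : Set (EuclideanSpace ℝ (Fin d))), (∀ x ∈ T, ‖x‖ ≤ 1) → Entropy p K T →
        ∀ (n : ℕ) (v : Fin n → EuclideanSpace ℝ (Fin d)), (∀ j, v j ∈ T) →
          Signing v (C * (1 + K) ^ (1 / 4 : ℝ) *
            (1 + Real.log (1 + ((min d n : ℕ) : ℝ))) ^ (1 / 4 - 1 / p + ε))) ∧
    (∃ C : ℝ, 0 < C ∧ ∀ k r : ℕ, 1 ≤ k → 1 ≤ r → ∀ (d : ℕ)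
      (W : Fin k → Submodule ℝ (EuclideanSpace ℝ (Fin d))), (∀ l, Module.finrank ℝ (W l) ≤ r) →
        ∀ (n : ℕ) (v : Fin n → EuclideanSpace ℝ (Fin d)), (∀ j, ‖v j‖ ≤ 1) →
          (∀ j, ∃ l, v j ∈ W l) →
            Signing v (C * (1 + Real.log k + r * Real.log (1 + r)) ^ (1 / 4 : ℝ))) :=
  ⟨fun p hp hp4 => part1 p hp hp4, fun p ε hp hε => part2 p ε hp hε, part3⟩

end Pool.Agent.Results.MP_c81d26_co.MetricEntropy
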