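import Pool.Agent.X157.KInfC

/-!
# The Komlós problem for infinite vector systems with a torsion-free abelian group of symmetries

Let `G` be an abelian group, possibly infinite, which is torsion-free (for example `ℤ^d`, for any
`d`) or in which every element has order `1` or `p` for one prime `p`. Let `G` act freely on the set
`N` of indices, with `r` orbits, and freely on the set `D` of coordinates (any number of orbits),
and let `v j`, `j ∈ N`, be vectors of `ℓ¹(D)` (for example finitely supported ones) of Euclidean
norm at most `1`, the family being invariant under `G`. Then some choice of signs has value at most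
`2 ^ 666 √r` in every coordinate; neither the rank of `G` nor the size of the supports matters.

Second part, the case of one orbit for `ℤ^d`: for every family `f ρ` of functions on `ℤ^d` whose
squares sum to at most `1`, there is `x : ℤ^d → {1, -1}` with `‖f ρ * x‖_∞ ≤ 2 ^ 666` for all `ρ`.

Proof. For finite supports, the supports generate a finitely generated torsion-free group, that is
`ℤ^d`, and for a large prime `p` the reduction to `(ℤ/p)^d` is injective on them; so the system with
group `(ℤ/p)^d` obtained from the quotient map has the same Euclidean norms, its signs (theorem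
`W862.Kom.oddP` of the library: elementary abelian `p`-groups, one orbit, constant `2 ^ 666`) are
pulled back on every coset of the generated group, and every coordinate of the infinite signed sum
is a coordinate of the finite one. Summable vectors follow by compactness, and `r` orbits by a
choice of signs of the orbits.
-/

namespace Pool.Agent.Results.MP_c81d26_co.TorsionFreeSymmetry

open MulAction

/-- the abelian group `G` (finite or infinite) is torsion-free, or all its elements have order `1`
or `p` for one prime `p` -/
def TorsionFreeOrPrimeExponent (G : Type) [CommGroup G] : Prop :=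
  (∀ (n : ℕ) (a : G), n ≠ 0 → a ^ n = 1 → a = 1) ∨ ∃ p : ℕ, p.Prime ∧ ∀ a : G, a ^ p = 1

/-- `G` acts freely on the set `D` of coordinates and freely on the set `N` of indices of the
vectors, and the family of vectors `v : N → (D → ℝ)` is invariant under the two actions -/
def FreeSymmetry (G D N : Type) [CommGroup G] [MulAction G D] [MulAction G N]
    (v : N → D → ℝ) : Prop :=
  (∀ (a : G) (k : D), a • k = k → a = 1) ∧ (∀ (a : G) (j : N), a • j = j → a = 1) ∧
    ∀ (a : G) (j : N) (k : D), v (a • j) (a • k) = v j k

/-- number of orbits of `G` on the index set `N` -/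
noncomputable def orbits (G N : Type) [Group G] [MulAction G N] : ℕ :=
  Nat.card (orbitRel.Quotient G N)

theorem result :
    (∀ (G D N : Type) [CommGroup G] [MulAction G D] [MulAction G N] (v : N → D → ℝ),
      TorsionFreeOrPrimeExponent G → FreeSymmetry G D N v → Finite (orbitRel.Quotient G N) →
      (∀ j, Summable fun k => |v j k|) → (∀ j, ∑' k, v j k ^ 2 ≤ 1) →
      ∃ ε : N → ℝ, (∀ j, ε j = 1 ∨ ε j = -1) ∧
        ∀ k, (Summable fun j => |v j k|) ∧
          |∑' j, ε j * v j k| ≤ 2 ^ 666 * Real.sqrt (orbits G N)) ∧
    (∀ (d : ℕ) (R : Type) (f : R → (Fin d → ℤ) → ℝ), (∀ ρ, Summable fun s => |f ρ s|) →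
      (Summable fun q : R × (Fin d → ℤ) => f q.1 q.2 ^ 2) →
      ∑' q : R × (Fin d → ℤ), f q.1 q.2 ^ 2 ≤ 1 →
      ∃ x : (Fin d → ℤ) → ℝ, (∀ s, x s = 1 ∨ x s = -1) ∧
        ∀ ρ n, |∑' s, f ρ s * x (n - s)| ≤ 2 ^ 666) := by
  refine ⟨?_, ?_⟩
  · intro G D N _ _ _ v hG hs hfin hsum hcol
    have hgood : Pool.Agent.X157.KInf.Good (Additive G) := by
      rcases hG with h | ⟨p, hp, h⟩
      · exact Or.inl fun n a hn ha => h n (Additive.toMul a) hn ha
      · exact Or.inr ⟨p, hp, fun a => h (Additive.toMul a)⟩
    exact Pool.Agent.X157.KInf.action_inf G D N hgood v hs.1 hs.2.1 hs.2.2 hsum hcol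
  · intro d R f hrow hs hn
    refine Pool.Agent.X157.KInf.one_inf (Or.inl fun n a hn ha => ?_) f hs hn hrow
    funext i
    have h1 := congrFun ha i
    simp only [Pi.smul_apply, nsmul_eq_mul, Pi.zero_apply, mul_eq_zero] at h1
    rcases h1 with h1 | h1
    · exact absurd (by exact_mod_cast h1) hn
    · exact h1

end Pool.Agent.Results.MP_c81d26_co.TorsionFreeSymmetry
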